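import Pool.Agent.TH255.QI.Main

/-!
# All variables are quasi-integers
-/

set_option autoImplicit false

namespace Pool.Agent.TH255.QI

open MvPolynomial

/-- clearing denominators -/
lemma clear {ι : Type} [Fintype ι] [DecidableEq ι] (F : MvPolynomial ι ℤ) :
    ∃ (N : ℕ) (G : MvPolynomial (ι ⊕ ι) ℤ), ∀ c d : ι → ℚ, (∀ i, d i ≠ 0) →
      aeval (Sum.elim c d) G = (∏ i, d i) ^ N * aeval (fun i => c i / d i) F := by
  induction F using MvPolynomial.induction_on with
  | C a =>
    refine ⟨0, C a, fun c d _ => ?_⟩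
    rw [aeval_C, aeval_C, pow_zero, one_mul]
  | add p q hp hq =>
    obtain ⟨N₁, G₁, h₁⟩ := hp
    obtain ⟨N₂, G₂, h₂⟩ := hq
    refine ⟨N₁ + N₂, (∏ i, X (Sum.inr i)) ^ N₂ * G₁ + (∏ i, X (Sum.inr i)) ^ N₁ * G₂,
      fun c d hd => ?_⟩
    have hP : aeval (Sum.elim c d) (∏ i, X (Sum.inr i) : MvPolynomial (ι ⊕ ι) ℤ) = ∏ i, d i := by
      rw [map_prod]
      exact Finset.prod_congr rfl fun i _ => by rw [aeval_X]; rfl
    rw [map_add, map_mul, map_mul, map_pow, map_pow, hP, h₁ c d hd, h₂ c d hd, map_add]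
    ring
  | mul_X p i hp =>
    obtain ⟨N, G, h⟩ := hp
    refine ⟨N + 1, G * (X (Sum.inl i) * ∏ j ∈ Finset.univ.erase i, X (Sum.inr j)),
      fun c d hd => ?_⟩
    have hP : aeval (Sum.elim c d) (∏ j ∈ Finset.univ.erase i, X (Sum.inr j) :
        MvPolynomial (ι ⊕ ι) ℤ) = ∏ j ∈ Finset.univ.erase i, d j := by
      rw [map_prod]
      exact Finset.prod_congr rfl fun i _ => by rw [aeval_X]; rfl
    rw [map_mul, map_mul, hP, h c d hd, aeval_X, Sum.elim_inl, map_mul, aeval_X]
    have h1 : ∏ j, d j = d i * ∏ j ∈ Finset.univ.erase i, d j :=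
      (Finset.mul_prod_erase _ _ (Finset.mem_univ i)).symm
    have h2 := hd i
    rw [pow_succ, h1]
    field_simp

/-- finitely many equations are one equation over the rationals -/
lemma single {τ : Type} (L : List (MvPolynomial τ ℤ)) :
    ∃ G : MvPolynomial τ ℤ, ∀ y : τ → ℚ, aeval y G = 0 ↔ ∀ p ∈ L, aeval y p = 0 := by
  have h : ∃ G : MvPolynomial τ ℤ, ∀ y : τ → ℚ, 0 ≤ (aeval y G : ℚ) ∧
      (aeval y G = 0 ↔ ∀ p ∈ L, aeval y p = 0) := by
    induction L with
    | nil => exact ⟨0, fun y => by simp⟩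
    | cons p L ih =>
      obtain ⟨G, hG⟩ := ih
      refine ⟨p ^ 2 + G, fun y => ?_⟩
      obtain ⟨h1, h2⟩ := hG y
      rw [List.forall_mem_cons, ← h2, map_add, map_pow]
      have h3 : 0 ≤ (aeval y p : ℚ) ^ 2 := sq_nonneg _
      refine ⟨by linarith, fun h => ?_, fun h => by rw [h.1, h.2]; norm_num⟩
      have h4 : (aeval y p : ℚ) ^ 2 = 0 := by linarith
      have h5 : (aeval y G : ℚ) = 0 := by linarith
      exact ⟨pow_eq_zero_iff (by norm_num) |>.mp h4, h5⟩
  obtain ⟨G, hG⟩ := h
  exact ⟨G, fun y => (hG y).2⟩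

/-- the form in which all variables are quasi-integers -/
theorem DT.final_all {A δ : ℝ} {P : ℚ → Prop} (h : DT (Qu A δ) (fun _ v => P (v 0))) :
    ∃ (n : ℕ) (F : MvPolynomial (Fin (n + 1)) ℤ), ∀ T : Set ℚ, Qu A δ T → ∀ x : ℚ,
      P x ↔ ∃ y : Fin n → ℚ, (∀ i, y i ∈ T) ∧
        aeval (Fin.cons x y : Fin (n + 1) → ℚ) F = 0 := by
  classical
  obtain ⟨n, F, S, hF⟩ := DT.final h
  obtain ⟨N, G, hG⟩ := clear F
  let ι := Fin (n + 1)
  -- the variables: `none` is `x`; `(i, 0)`, `(i, 1)`: numerator and denominator; `(i, 2)`: value;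
  -- `(i, 3), ..., (i, 6)`: squares
  let τ := Option (ι × Fin 7)
  let L : List (MvPolynomial τ ℤ) :=
    rename (Sum.elim (fun i : ι => some (i, 0)) (fun i : ι => some (i, 1))) G ::
    (X none * X (some (0, 1)) - X (some (0, 0))) ::
    ((List.finRange (n + 1)).map fun i => X (some (i, 1)) ^ 2 - 1 - X (some (i, 3)) ^ 2 -
      X (some (i, 4)) ^ 2 - X (some (i, 5)) ^ 2 - X (some (i, 6)) ^ 2) ++
    (S.toList.map fun i => X (some (i, 2)) * X (some (i, 1)) - X (some (i, 0)))
  obtain ⟨E, hE⟩ := single L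
  let e := Fintype.equivFin (ι × Fin 7)
  let g : τ → Fin (Fintype.card (ι × Fin 7) + 1) := fun t =>
    t.elim 0 (fun s => (e s).succ)
  have hg0 : g none = 0 := rfl
  have hgs : ∀ s, g (some s) = (e s).succ := fun s => rfl
  -- the meaning of the equations
  have hL : ∀ w : τ → ℚ, (∀ p ∈ L, aeval w p = 0) ↔
      aeval (Sum.elim (fun i : ι => w (some (i, 0))) (fun i : ι => w (some (i, 1)))) G = 0 ∧
      w none * w (some (0, 1)) = w (some (0, 0)) ∧
      (∀ i : ι, w (some (i, 1)) ^ 2 = 1 + w (some (i, 3)) ^ 2 + w (some (i, 4)) ^ 2 +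
        w (some (i, 5)) ^ 2 + w (some (i, 6)) ^ 2) ∧
      ∀ i ∈ S, w (some (i, 2)) * w (some (i, 1)) = w (some (i, 0)) := by
    intro w
    have h1 : aeval w (rename (Sum.elim (fun i : ι => (some (i, 0) : τ))
        (fun i : ι => some (i, 1))) G) =
        aeval (Sum.elim (fun i : ι => w (some (i, 0))) (fun i : ι => w (some (i, 1)))) G := by
      rw [aeval_rename]
      congr 2
      funext s
      rcases s with i | i <;> rfl
    simp only [L, List.mem_append, List.mem_cons, List.mem_map, List.mem_finRange,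
      Finset.mem_toList, true_and]
    constructor
    · intro h
      refine ⟨?_, ?_, fun i => ?_, fun i hi => ?_⟩
      · rw [← h1]
        exact h _ (Or.inl (Or.inl rfl))
      · have := h _ (Or.inl (Or.inr (Or.inl rfl)))
        simp only [map_sub, map_mul, aeval_X] at this
        linarith
      · have := h _ (Or.inl (Or.inr (Or.inr ⟨i, rfl⟩)))
        simp only [map_sub, map_pow, map_one, aeval_X] at this
        linarith
      · have := h _ (Or.inr ⟨i, hi, rfl⟩)
        simp only [map_sub, map_mul, aeval_X] at this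
        linarith
    · rintro ⟨h2, h3, h4, h5⟩ p hp
      rcases hp with (rfl | rfl | ⟨i, rfl⟩) | ⟨i, hi, rfl⟩
      · rw [h1]
        exact h2
      · simp only [map_sub, map_mul, aeval_X]
        linarith
      · simp only [map_sub, map_pow, map_one, aeval_X]
        linarith [h4 i]
      · simp only [map_sub, map_mul, aeval_X]
        linarith [h5 i hi]
  refine ⟨_, rename g E, fun T hT x => ?_⟩
  constructor
  · intro hx
    obtain ⟨y, hy0, hyF, hyS⟩ := (hF T hT x).mp hx
    -- four squares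
    have h4 : ∀ i : ι, ∃ q : Fin 4 → ℤ, ((y i).den : ℤ) ^ 2 = 1 + q 0 ^ 2 + q 1 ^ 2 + q 2 ^ 2 + q 3 ^ 2 := by
      intro i
      obtain ⟨a, b, c, d, habcd⟩ := Nat.sum_four_squares ((y i).den ^ 2 - 1)
      have h5 : 1 ≤ (y i).den ^ 2 := Nat.one_le_pow _ _ (y i).den_pos
      refine ⟨![a, b, c, d], ?_⟩
      have h6 : (y i).den ^ 2 = 1 + a ^ 2 + b ^ 2 + c ^ 2 + d ^ 2 := by omega
      have h7 : (((y i).den ^ 2 : ℕ) : ℤ) = ((1 + a ^ 2 + b ^ 2 + c ^ 2 + d ^ 2 : ℕ) : ℤ) := by
        rw [h6]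
      push_cast at h7
      simpa using h7
    choose q hq using h4
    let w : τ → ℚ := fun t => t.elim x (fun s => (![((y s.1).num : ℚ), ((y s.1).den : ℚ),
      (if s.1 ∈ S then y s.1 else 0), (q s.1 0 : ℚ), (q s.1 1 : ℚ), (q s.1 2 : ℚ),
      (q s.1 3 : ℚ)] : Fin 7 → ℚ) s.2)
    have hw : ∀ p ∈ L, aeval w p = 0 := by
      rw [hL]
      refine ⟨?_, ?_, fun i => ?_, fun i hi => ?_⟩
      · have h5 := hG (fun i => ((y i).num : ℚ)) (fun i => ((y i).den : ℚ))
          (fun i => by exact_mod_cast (y i).den_ne_zero)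
        have h6 : (fun i => ((y i).num : ℚ) / ((y i).den : ℚ)) = y :=
          funext fun i => Rat.num_div_den (y i)
        rw [h6, hyF, mul_zero] at h5
        exact h5
      · change x * ((y 0).den : ℚ) = ((y 0).num : ℚ)
        rw [← hy0]
        exact Rat.mul_den_eq_num (y 0)
      · change ((y i).den : ℚ) ^ 2 = 1 + (q i 0 : ℚ) ^ 2 + (q i 1 : ℚ) ^ 2 + (q i 2 : ℚ) ^ 2 +
          (q i 3 : ℚ) ^ 2
        exact_mod_cast congrArg (fun t : ℤ => (t : ℚ)) (hq i)
      · change (if i ∈ S then y i else 0) * ((y i).den : ℚ) = ((y i).num : ℚ)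
        rw [if_pos hi]
        exact Rat.mul_den_eq_num (y i)
    refine ⟨fun j => w (some (e.symm j)), fun j => ?_, ?_⟩
    · set s := e.symm j with hs
      change (![((y s.1).num : ℚ), ((y s.1).den : ℚ), (if s.1 ∈ S then y s.1 else 0),
        (q s.1 0 : ℚ), (q s.1 1 : ℚ), (q s.1 2 : ℚ), (q s.1 3 : ℚ)] : Fin 7 → ℚ) s.2 ∈ T
      obtain ⟨i, k⟩ := s
      fin_cases k
      · exact hT.1 _
      · have := hT.1 ((y i).den : ℤ)
        rw [Int.cast_natCast] at this
        exact this
      · change (if i ∈ S then y i else 0) ∈ T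
        split_ifs with hi
        · exact hyS i hi
        · have := hT.1 0
          rwa [Int.cast_zero] at this
      · exact hT.1 _
      · exact hT.1 _
      · exact hT.1 _
      · exact hT.1 _
    · have h5 := (hE w).mpr hw
      rw [aeval_rename]
      have h6 : (Fin.cons x (fun j => w (some (e.symm j))) :
          Fin (Fintype.card (ι × Fin 7) + 1) → ℚ) ∘ g = w := by
        funext t
        rcases t with _ | s
        · rfl
        · simp only [Function.comp, hgs, Fin.cons_succ, Equiv.symm_apply_apply]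
      rw [h6]
      exact h5
  · rintro ⟨y, hyT, hy⟩
    set w : τ → ℚ := (Fin.cons x y : Fin (Fintype.card (ι × Fin 7) + 1) → ℚ) ∘ g with hw
    rw [aeval_rename] at hy
    have h5 := (hE w).mp hy
    rw [hL] at h5
    obtain ⟨h6, h7, h8, h9⟩ := h5
    have hx : w none = x := rfl
    have hT' : ∀ s, w (some s) ∈ T := by
      intro s
      have : w (some s) = y (e s) := by
        simp only [hw, Function.comp, hgs, Fin.cons_succ]
      rw [this]
      exact hyT _
    have hd : ∀ i : ι, w (some (i, 1)) ≠ 0 := by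
      intro i h0
      have := h8 i
      rw [h0] at this
      nlinarith [sq_nonneg (w (some (i, 3))), sq_nonneg (w (some (i, 4))),
        sq_nonneg (w (some (i, 5))), sq_nonneg (w (some (i, 6)))]
    have h10 := hG (fun i => w (some (i, 0))) (fun i => w (some (i, 1))) hd
    rw [h6] at h10
    have h11 : (∏ i : ι, w (some (i, 1))) ^ N ≠ 0 :=
      pow_ne_zero _ (Finset.prod_ne_zero_iff.mpr fun i _ => hd i)
    have h12 := (mul_eq_zero.mp h10.symm).resolve_left h11
    refine (hF T hT x).mpr ⟨fun i => w (some (i, 0)) / w (some (i, 1)), ?_, h12, fun i hi => ?_⟩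
    · change w (some (0, 0)) / w (some (0, 1)) = x
      rw [← h7, hx, mul_div_assoc, div_self (hd 0), mul_one]
    · have h13 : w (some (i, 0)) / w (some (i, 1)) = w (some (i, 2)) := by
        rw [← h9 i hi, mul_div_assoc, div_self (hd i), mul_one]
      change w (some (i, 0)) / w (some (i, 1)) ∈ T
      rw [h13]
      exact hT' _

end Pool.Agent.TH255.QI
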