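import Pool.Agent.TH255.HC.Frame

/-!
# Existential definitions over `ℚ` in the language of rings with one more unary predicate
-/

set_option autoImplicit false

namespace Pool.Agent.TH255.QI

open MvPolynomial
open Pool.Agent.TH255.HC

/-- existentially defined relations, in the language with one more unary predicate `T`; `𝒯` is the
class of the predicates which are considered -/
def DT (𝒯 : Set ℚ → Prop) (P : Set ℚ → (ℕ → ℚ) → Prop) : Prop :=
  ∃ (p : MvPolynomial ℕ ℤ) (S : List ℕ), ∀ T, 𝒯 T → ∀ v, P T v ↔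
    ∃ u, aeval (mix v u) p = 0 ∧ ∀ s ∈ S, mix v u s ∈ T

variable {𝒯 : Set ℚ → Prop} {P P' : Set ℚ → (ℕ → ℚ) → Prop}

theorem DT.congr (h : DT 𝒯 P) (h' : ∀ T, 𝒯 T → ∀ v, P' T v ↔ P T v) : DT 𝒯 P' := by
  obtain ⟨p, S, h⟩ := h
  exact ⟨p, S, fun T hT v => (h' T hT v).trans (h T hT v)⟩

theorem DT.eq {f g : (ℕ → ℚ) → ℚ} (hf : PF f) (hg : PF g) : DT 𝒯 (fun _ v => f v = g v) := by
  obtain ⟨p, hp⟩ := hf.sub hg
  refine ⟨rename (fun n => 2 * n) p, [], fun T _ v => ?_⟩
  have key : ∀ u, aeval (mix v u) (rename (fun n => 2 * n) p) = f v - g v := by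
    intro u
    rw [aeval_rename]
    have : mix v u ∘ (fun n => 2 * n) = v := funext fun n => mix_even v u n
    rw [this]
    exact hp v
  constructor
  · intro h
    exact ⟨fun _ => 0, by rw [key, h, sub_self], by simp⟩
  · rintro ⟨u, hu, -⟩
    rw [key] at hu
    linarith

theorem DT.true : DT 𝒯 (fun _ _ => True) :=
  (DT.eq PF.zero PF.zero).congr fun _ _ _ => by simp

theorem DT.and (h : DT 𝒯 P) (h' : DT 𝒯 P') : DT 𝒯 (fun T v => P T v ∧ P' T v) := by
  obtain ⟨p, S, hp⟩ := h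
  obtain ⟨q, S', hq⟩ := h'
  refine ⟨rename g1 p ^ 2 + rename g2 q ^ 2, S.map g1 ++ S'.map g2, fun T hT v => ?_⟩
  have key : ∀ u, aeval (mix v u) (rename g1 p ^ 2 + rename g2 q ^ 2) =
      aeval (mix v (fun m => u (2 * m))) p ^ 2 + aeval (mix v (fun m => u (2 * m + 1))) q ^ 2 := by
    intro u
    rw [map_add, map_pow, map_pow, aeval_g1, aeval_g2]
  change P T v ∧ P' T v ↔ _
  rw [hp T hT, hq T hT]
  constructor
  · rintro ⟨⟨a, ha, ha'⟩, ⟨b, hb, hb'⟩⟩
    refine ⟨mix a b, ?_, ?_⟩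
    · rw [key, mix_ev_fun, mix_od_fun, ha, hb]
      norm_num
    · intro s hs
      rw [List.mem_append, List.mem_map, List.mem_map] at hs
      rcases hs with ⟨s, hs, rfl⟩ | ⟨s, hs, rfl⟩
      · simp only [mix_g1, mix_ev_fun]
        exact ha' s hs
      · simp only [mix_g2, mix_od_fun]
        exact hb' s hs
  · rintro ⟨u, hu, hu'⟩
    rw [key] at hu
    have h1 := sq_nonneg (aeval (mix v (fun m => u (2 * m))) p)
    have h2 := sq_nonneg (aeval (mix v (fun m => u (2 * m + 1))) q)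
    refine ⟨⟨_, (pow_eq_zero_iff two_ne_zero).1 (le_antisymm (by linarith) h1), fun s hs => ?_⟩,
      ⟨_, (pow_eq_zero_iff two_ne_zero).1 (le_antisymm (by linarith) h2), fun s hs => ?_⟩⟩
    · have := hu' (g1 s) (List.mem_append_left _ (List.mem_map_of_mem hs))
      rwa [mix_g1] at this
    · have := hu' (g2 s) (List.mem_append_right _ (List.mem_map_of_mem hs))
      rwa [mix_g2] at this

/-- existential quantification over a block of variables -/
theorem DT.exs {P : Set ℚ → (ℕ → ℚ) → (ℕ → ℚ) → Prop}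
    (h : DT 𝒯 (fun T w => P T (fun n => w (2 * n)) (fun n => w (2 * n + 1)))) :
    DT 𝒯 (fun T v => ∃ u, P T v u) := by
  obtain ⟨p, S, hp⟩ := h
  refine ⟨rename g3 p, S.map g3, fun T hT v => ?_⟩
  constructor
  · rintro ⟨a, ha⟩
    have h1 := (hp T hT (mix v a)).1 (by simpa only [mix_ev_fun, mix_od_fun] using ha)
    obtain ⟨b, hb, hb'⟩ := h1
    refine ⟨mix a b, ?_, ?_⟩
    · rw [aeval_rename]
      have : mix v (mix a b) ∘ g3 = mix (mix v a) b := by
        funext n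
        simp only [Function.comp, mix_g3, mix_ev_fun, mix_od_fun]
      rw [this]
      exact hb
    · intro s hs
      rw [List.mem_map] at hs
      obtain ⟨s, hs, rfl⟩ := hs
      simp only [mix_g3, mix_ev_fun, mix_od_fun]
      exact hb' s hs
  · rintro ⟨u, hu, hu'⟩
    refine ⟨fun m => u (2 * m), ?_⟩
    have h1 := (hp T hT (mix v (fun m => u (2 * m)))).2 ⟨fun m => u (2 * m + 1), ?_, ?_⟩
    · simpa only [mix_ev_fun, mix_od_fun] using h1
    · rw [aeval_rename] at hu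
      have : mix v u ∘ g3 = mix (mix v (fun m => u (2 * m))) (fun m => u (2 * m + 1)) := by
        funext n
        simp only [Function.comp, mix_g3]
      rw [this] at hu
      exact hu
    · intro s hs
      have := hu' (g3 s) (List.mem_map_of_mem hs)
      rwa [mix_g3] at this

/-- renaming the free variables -/
theorem DT.ren (h : DT 𝒯 P) (r : ℕ → ℕ) : DT 𝒯 (fun T v => P T (fun n => v (r n))) := by
  obtain ⟨p, S, hp⟩ := h
  let k : ℕ → ℕ := fun n => if n % 2 = 0 then 2 * r (n / 2) else n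
  have hk : ∀ v u n, mix v u (k n) = mix (fun n => v (r n)) u n := by
    intro v u n
    obtain ⟨m, rfl | rfl⟩ : ∃ m, n = 2 * m ∨ n = 2 * m + 1 := ⟨n / 2, by omega⟩
    · have h1 : 2 * m / 2 = m := by omega
      simp only [k]
      rw [if_pos (by omega), h1, mix_even, mix_even]
    · simp only [k]
      rw [if_neg (by omega), mix_odd, mix_odd]
  refine ⟨rename k p, S.map k, fun T hT v => ?_⟩
  change P T (fun n => v (r n)) ↔ _
  rw [hp T hT]
  refine exists_congr fun u => ?_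
  rw [aeval_rename]
  have : mix v u ∘ k = mix (fun n => v (r n)) u := funext fun n => hk v u n
  rw [this]
  refine and_congr_right fun _ => ?_
  constructor
  · intro h s hs
    rw [List.mem_map] at hs
    obtain ⟨s, hs, rfl⟩ := hs
    rw [hk]
    exact h s hs
  · intro h s hs
    have := h (k s) (List.mem_map_of_mem hs)
    rwa [hk] at this

/-- membership in `T` -/
theorem DT.mem {f : (ℕ → ℚ) → ℚ} (hf : PF f) : DT 𝒯 (fun T v => f v ∈ T) := by
  have h0 : DT 𝒯 (fun T v => v 1 ∈ T) := by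
    refine ⟨0, [2], fun T _ v => ?_⟩
    have e1 : ∀ u, mix v u 2 = v 1 := fun u => mix_even v u 1
    constructor
    · intro h
      refine ⟨fun _ => 0, by simp, ?_⟩
      intro s hs
      rw [List.mem_singleton] at hs
      rw [hs, e1]
      exact h
    · rintro ⟨u, -, h⟩
      have := h 2 (List.mem_singleton.2 rfl)
      rwa [e1] at this
  have h1 : DT 𝒯 (fun T v => ∃ u : ℕ → ℚ, u 0 = f v ∧ u 0 ∈ T) :=
    DT.exs ((DT.eq (PF.od 0) hf.ev).and h0)
  refine h1.congr fun T _ v => ?_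
  constructor
  · intro h
    exact ⟨fun _ => f v, rfl, h⟩
  · rintro ⟨u, h0, h⟩
    rwa [h0] at h

theorem DT.ne {f g : (ℕ → ℚ) → ℚ} (hf : PF f) (hg : PF g) : DT 𝒯 (fun _ v => f v ≠ g v) := by
  have h : DT 𝒯 (fun _ v => ∃ u : ℕ → ℚ, (f v - g v) * u 0 = 1) :=
    DT.exs (DT.eq ((hf.ev.sub hg.ev).mul (PF.od 0)) PF.one)
  refine h.congr fun _ _ v => ?_
  constructor
  · intro h
    exact ⟨fun _ => (f v - g v)⁻¹, mul_inv_cancel₀ (sub_ne_zero.2 h)⟩
  · rintro ⟨a, ha⟩ h
    rw [h, sub_self, zero_mul] at ha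
    exact zero_ne_one ha

lemma four_sq {q : ℚ} (hq : 0 ≤ q) : ∃ a b c d : ℚ, q = a ^ 2 + b ^ 2 + c ^ 2 + d ^ 2 := by
  obtain ⟨a, b, c, d, h⟩ := Nat.sum_four_squares (q.num.toNat * q.den)
  have hd : (q.den : ℚ) ≠ 0 := by exact_mod_cast q.den_nz
  have hn : ((q.num.toNat : ℕ) : ℚ) = (q.num : ℚ) := by
    have : ((q.num.toNat : ℕ) : ℤ) = q.num := Int.toNat_of_nonneg (Rat.num_nonneg.mpr hq)
    exact_mod_cast this
  refine ⟨a / q.den, b / q.den, c / q.den, d / q.den, ?_⟩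
  have h' : (a : ℚ) ^ 2 + b ^ 2 + c ^ 2 + d ^ 2 = q * q.den * q.den := by
    rw [Rat.mul_den_eq_num, ← hn]
    exact_mod_cast h
  rw [div_pow, div_pow, div_pow, div_pow, ← add_div, ← add_div, ← add_div, h',
    eq_div_iff (pow_ne_zero 2 hd)]
  ring

theorem DT.le {f g : (ℕ → ℚ) → ℚ} (hf : PF f) (hg : PF g) : DT 𝒯 (fun _ v => f v ≤ g v) := by
  have h : DT 𝒯 (fun _ v => ∃ u : ℕ → ℚ,
      g v - f v = u 0 ^ 2 + u 1 ^ 2 + u 2 ^ 2 + u 3 ^ 2) :=
    DT.exs (DT.eq (hg.ev.sub hf.ev) (((((PF.od 0).pow 2).add ((PF.od 1).pow 2)).add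
      ((PF.od 2).pow 2)).add ((PF.od 3).pow 2)))
  refine h.congr fun _ _ v => ?_
  constructor
  · intro h
    obtain ⟨a, b, c, d, h1⟩ := four_sq (sub_nonneg.mpr h)
    exact ⟨fun n => if n = 0 then a else if n = 1 then b else if n = 2 then c else d,
      by simpa using h1⟩
  · rintro ⟨u, hu⟩
    have : 0 ≤ g v - f v := by rw [hu]; positivity
    linarith

theorem DT.list {α : Type*} (L : List α) {Q : α → Set ℚ → (ℕ → ℚ) → Prop}
    (h : ∀ a, DT 𝒯 (Q a)) : DT 𝒯 (fun T v => ∀ a ∈ L, Q a T v) := by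
  induction L with
  | nil => exact DT.true.congr fun _ _ _ => by simp
  | cons a L ih => exact ((h a).and ih).congr fun _ _ _ => by simp

/-- the final form: one polynomial, finitely many variables in `T` -/
theorem DT.final {Q : ℚ → Prop} (h : DT 𝒯 (fun _ v => Q (v 0))) :
    ∃ (n : ℕ) (p : MvPolynomial (Fin (n + 1)) ℤ) (S : Finset (Fin (n + 1))),
      ∀ T : Set ℚ, 𝒯 T → ∀ x : ℚ, Q x ↔ ∃ y : Fin (n + 1) → ℚ, y 0 = x ∧
        aeval y p = 0 ∧ ∀ s ∈ S, y s ∈ T := by
  classical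
  obtain ⟨p, S, hp⟩ := h
  obtain ⟨B, hB, hS⟩ : ∃ B : ℕ, (∀ i ∈ p.vars, i < B) ∧ ∀ s ∈ S, s < B := by
    refine ⟨p.vars.sup id + S.sum + 1, fun i hi => ?_, fun s hs => ?_⟩
    · have : id i ≤ p.vars.sup id := Finset.le_sup hi
      simp only [id] at this
      omega
    · have : s ≤ S.sum := List.single_le_sum (fun _ _ => Nat.zero_le _) _ hs
      omega
  let g : ℕ → Fin (B + 1) := fun n => if h : n < B + 1 then ⟨n, h⟩ else 0
  have hg : ∀ n, n < B → ((g n : Fin (B + 1)) : ℕ) = n := by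
    intro n hn
    simp only [g]
    rw [dif_pos (by omega)]
  have key : ∀ (w : ℕ → ℚ) (y : Fin (B + 1) → ℚ), (∀ i : Fin (B + 1), y i = w i) →
      aeval y (rename g p) = aeval w p ∧ ∀ s ∈ S, y (g s) = w s := by
    intro w y hw
    refine ⟨?_, fun s hs => ?_⟩
    · rw [aeval_rename]
      apply MvPolynomial.eval₂Hom_congr' rfl _ rfl
      intro i hi _
      simp only [Function.comp]
      rw [hw, hg i (hB i hi)]
    · rw [hw, hg _ (hS s hs)]
  refine ⟨B, rename g p, (S.map g).toFinset, fun T hT x => ?_⟩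
  constructor
  · intro hx
    obtain ⟨u, hu, hu'⟩ := (hp T hT (fun _ => x)).1 hx
    obtain ⟨k1, k2⟩ := key (mix (fun _ => x) u) (fun i => mix (fun _ => x) u i) (fun _ => rfl)
    refine ⟨fun i => mix (fun _ => x) u i, mix_even _ u 0, by rw [k1]; exact hu, ?_⟩
    intro s hs
    rw [List.mem_toFinset, List.mem_map] at hs
    obtain ⟨s, hs, rfl⟩ := hs
    change mix (fun _ => x) u (g s) ∈ T
    rw [k2 s hs]
    exact hu' s hs
  · rintro ⟨y, hy, hp0, hR'⟩
    set w : ℕ → ℚ := fun n => if h : n < B + 1 then y ⟨n, h⟩ else 0 with hw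
    have hyw : ∀ i : Fin (B + 1), y i = w i := by
      intro i
      simp only [w]
      rw [dif_pos i.2]
    obtain ⟨k1, k2⟩ := key w y hyw
    have hmix : mix (fun n => w (2 * n)) (fun n => w (2 * n + 1)) = w := by
      funext n
      obtain ⟨m, rfl | rfl⟩ : ∃ m, n = 2 * m ∨ n = 2 * m + 1 := ⟨n / 2, by omega⟩
      · rw [mix_even]
      · rw [mix_odd]
    have h1 := (hp T hT (fun n => w (2 * n))).2 ⟨fun n => w (2 * n + 1), by
      rw [hmix, ← k1]; exact hp0, fun s hs => by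
        rw [hmix, ← k2 s hs]
        exact hR' _ (List.mem_toFinset.2 (List.mem_map_of_mem hs))⟩
    have h2 : w (2 * 0) = x := by
      rw [← hy, hyw]; rfl
    change Q (w (2 * 0)) at h1
    rwa [h2] at h1

end Pool.Agent.TH255.QI
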