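import Pool.Agent.TH255.QI.Rel

/-!
# Definitions with quasi-integers
-/

set_option autoImplicit false

namespace Pool.Agent.TH255.QI

open MvPolynomial
open Pool.Agent.TH255.HC

variable {A δ : ℝ}

theorem dt_int (hδ : δ < 1 / 2) : DT (Qu A δ) (fun _ v => ∃ z : ℤ, v 0 = z) :=
  dt_of_dh (τ := tq A δ hδ) (fun _ hT => btw_rt hδ hT) dh_int

theorem dt_re (hδ : δ < 1 / 2) {W : ℕ → Prop} (hW : REPred W) :
    DT (Qu A δ) (fun _ v => ∃ a : ℕ, v 0 = a ∧ W a) :=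
  dt_of_dh (τ := tq A δ hδ) (fun _ hT => btw_rt hδ hT) (dh_re hW)

end Pool.Agent.TH255.QI
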