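import Pool.Agent.TH255.QI.Frame
import Pool.Agent.TH255.HC.Loc

/-!
# Comparing heights with quasi-integers
-/

set_option autoImplicit false

namespace Pool.Agent.TH255.QI

open Pool.Agent.TH255.HC

/-- `T` contains the integers, and the denominators of the elements `x` of `T` are at most
`exp (A (1 + log max(1, |x|)) ^ δ)` -/
def Qu (A δ : ℝ) (T : Set ℚ) : Prop :=
  (∀ z : ℤ, (z : ℚ) ∈ T) ∧
    ∀ x ∈ T, Real.log x.den ≤ A * (1 + Real.log (max 1 |(x : ℝ)|)) ^ δ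

/-- the comparison of heights: `x = a / b`, `y = c / d`, `c e + d f = 1`, and `a`, `b`, `e`, `f`
are not larger than `c`, `d` -/
def RT (T : Set ℚ) (x y : ℚ) : Prop :=
  ∃ a b c d e f : ℚ, (a ∈ T ∧ b ∈ T ∧ c ∈ T ∧ d ∈ T ∧ e ∈ T ∧ f ∈ T) ∧
    (x * b = a ∧ b ≠ 0) ∧ (y * d = c ∧ d ≠ 0) ∧ c * e + d * f = 1 ∧
    (a ^ 2 ≤ c ^ 2 + d ^ 2 ∧ b ^ 2 ≤ c ^ 2 + d ^ 2) ∧
    (e ^ 2 ≤ c ^ 2 + d ^ 2 ∧ f ^ 2 ≤ c ^ 2 + d ^ 2)

theorem dt_rt {𝒯 : Set ℚ → Prop} (i j : ℕ) : DT 𝒯 (fun T v => RT T (v i) (v j)) := by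
  have h : DT 𝒯 (fun T v => ∃ u : ℕ → ℚ,
      (u 0 ∈ T ∧ u 1 ∈ T ∧ u 2 ∈ T ∧ u 3 ∈ T ∧ u 4 ∈ T ∧ u 5 ∈ T) ∧
      (v i * u 1 = u 0 ∧ u 1 ≠ 0) ∧ (v j * u 3 = u 2 ∧ u 3 ≠ 0) ∧ u 2 * u 4 + u 3 * u 5 = 1 ∧
      (u 0 ^ 2 ≤ u 2 ^ 2 + u 3 ^ 2 ∧ u 1 ^ 2 ≤ u 2 ^ 2 + u 3 ^ 2) ∧
      (u 4 ^ 2 ≤ u 2 ^ 2 + u 3 ^ 2 ∧ u 5 ^ 2 ≤ u 2 ^ 2 + u 3 ^ 2)) := by
    refine DT.exs ?_
    have l : PF (fun v => v (2 * 2 + 1) ^ 2 + v (2 * 3 + 1) ^ 2) :=
      ((PF.od 2).pow 2).add ((PF.od 3).pow 2)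
    refine ((DT.mem (PF.od 0)).and ((DT.mem (PF.od 1)).and ((DT.mem (PF.od 2)).and
      ((DT.mem (PF.od 3)).and ((DT.mem (PF.od 4)).and (DT.mem (PF.od 5))))))).and ?_
    refine ((DT.eq ((PF.var i).ev.mul (PF.od 1)) (PF.od 0)).and (DT.ne (PF.od 1) PF.zero)).and ?_
    refine ((DT.eq ((PF.var j).ev.mul (PF.od 3)) (PF.od 2)).and (DT.ne (PF.od 3) PF.zero)).and ?_
    refine (DT.eq (((PF.od 2).mul (PF.od 4)).add ((PF.od 3).mul (PF.od 5))) PF.one).and ?_
    exact ((DT.le ((PF.od 0).pow 2) l).and (DT.le ((PF.od 1).pow 2) l)).and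
      ((DT.le ((PF.od 4).pow 2) l).and (DT.le ((PF.od 5).pow 2) l))
  refine h.congr fun T _ v => ?_
  constructor
  · rintro ⟨a, b, c, d, e, f, h⟩
    exact ⟨fun n => if n = 0 then a else if n = 1 then b else if n = 2 then c else
      if n = 3 then d else if n = 4 then e else f, by simpa using h⟩
  · rintro ⟨u, h⟩
    exact ⟨u 0, u 1, u 2, u 3, u 4, u 5, h⟩

/-- definitions with a comparison of heights become definitions with `T` -/
theorem dt_of_dh {𝒯 : Set ℚ → Prop} {τ : Tol} (hτ : ∀ T, 𝒯 T → Btw τ (RT T))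
    {P : (ℚ → ℚ → Prop) → (ℕ → ℚ) → Prop} (h : DH τ P) : DT 𝒯 (fun T v => P (RT T) v) := by
  obtain ⟨p, S, hp⟩ := h
  have h1 : DT 𝒯 (fun T v => ∃ u : ℕ → ℚ, MvPolynomial.aeval (mix v u) p = 0 ∧
      ∀ s ∈ S, RT T (mix v u s.1) (mix v u s.2)) := by
    refine DT.exs ?_
    have e : ∀ w : ℕ → ℚ, mix (fun n => w (2 * n)) (fun n => w (2 * n + 1)) = w := by
      intro w
      funext n
      obtain ⟨m, rfl | rfl⟩ : ∃ m, n = 2 * m ∨ n = 2 * m + 1 := ⟨n / 2, by omega⟩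
      · rw [mix_even]
      · rw [mix_odd]
    have h2 : DT 𝒯 (fun T w => MvPolynomial.aeval w p = 0 ∧ ∀ s ∈ S, RT T (w s.1) (w s.2)) :=
      (DT.eq ⟨p, fun _ => rfl⟩ PF.zero).and (DT.list S fun s => dt_rt s.1 s.2)
    refine h2.congr fun T _ w => ?_
    rw [e]
  exact h1.congr fun T hT v => hp _ (hτ T hT) v

/-! ### completeness -/

lemma bezout {c d : ℤ} (hd : 0 < d) (h : IsCoprime c d) :
    ∃ e f : ℤ, c * e + d * f = 1 ∧ e ^ 2 ≤ c ^ 2 + d ^ 2 ∧ f ^ 2 ≤ c ^ 2 + d ^ 2 := by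
  obtain ⟨u, v, huv⟩ := h
  set e := u % d with he
  set f := v + c * (u / d) with hf
  have h1 : c * e + d * f = 1 := by
    have := Int.emod_add_mul_ediv u d
    have e1 : e = u - d * (u / d) := by rw [he]; linarith
    rw [e1, hf]
    linear_combination huv
  have he0 : 0 ≤ e := Int.emod_nonneg _ hd.ne'
  have hed : e < d := Int.emod_lt_of_pos _ hd
  refine ⟨e, f, h1, by nlinarith [sq_nonneg c], ?_⟩
  have hdf : d * f = 1 - c * e := by linarith
  by_cases hc : c = 0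
  · subst hc
    have h2 : d * f = 1 := by linarith
    have : f ≤ d := by nlinarith
    have hf0 : 0 < f := by
      by_contra hc
      push Not at hc
      nlinarith
    nlinarith
  · have hc1 : 1 ≤ |c| := Int.one_le_abs hc
    have h3 : |d * f| ≤ 1 + |c| * (d - 1) := by
      rw [hdf]
      calc |1 - c * e| ≤ |1| + |c * e| := abs_sub _ _
        _ = 1 + |c| * e := by rw [abs_one, abs_mul, abs_of_nonneg he0]
        _ ≤ 1 + |c| * (d - 1) := by
          have : |c| * e ≤ |c| * (d - 1) := mul_le_mul_of_nonneg_left (by omega) (abs_nonneg c)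
          linarith
    rw [abs_mul, abs_of_pos hd] at h3
    have h4 : d * |f| ≤ d * |c| := by nlinarith
    have h5 : |f| ≤ |c| := le_of_mul_le_mul_left h4 hd
    have h6 : f ^ 2 ≤ c ^ 2 := sq_le_sq.mpr h5
    nlinarith [sq_nonneg d]

lemma rt_compl {T : Set ℚ} (hT : ∀ z : ℤ, (z : ℚ) ∈ T) {x y : ℚ} (h : H x ≤ H y) : RT T x y := by
  have hcop : IsCoprime y.num (y.den : ℤ) := by
    rw [Int.isCoprime_iff_nat_coprime, Int.natAbs_natCast]
    exact y.reduced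
  have hd : (0 : ℤ) < y.den := by exact_mod_cast y.den_pos
  obtain ⟨e, f, h1, h2, h3⟩ := bezout hd hcop
  have hL : (H y : ℤ) ^ 2 ≤ y.num ^ 2 + (y.den : ℤ) ^ 2 := by
    have := (sq_bounds y).1
    have h4 : ((H y ^ 2 : ℕ) : ℤ) ≤ ((y.num.natAbs ^ 2 + y.den ^ 2 : ℕ) : ℤ) := by
      exact_mod_cast this
    push_cast at h4
    rwa [sq_abs] at h4
  have hHH : (H x : ℤ) ≤ H y := by exact_mod_cast h
  have hHx0 : (0 : ℤ) ≤ H x := Int.natCast_nonneg _
  have ha : x.num ^ 2 ≤ y.num ^ 2 + (y.den : ℤ) ^ 2 := by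
    have h4 : |x.num| ≤ H x := by
      have : x.num.natAbs ≤ H x := le_max_left _ _
      rw [← Int.natCast_natAbs]
      exact_mod_cast this
    have h5 : x.num ^ 2 ≤ (H x : ℤ) ^ 2 := by
      rw [← sq_abs x.num]
      exact pow_le_pow_left₀ (abs_nonneg _) h4 2
    nlinarith
  have hb : (x.den : ℤ) ^ 2 ≤ y.num ^ 2 + (y.den : ℤ) ^ 2 := by
    have h4 : (x.den : ℤ) ≤ H x := by
      have : x.den ≤ H x := le_max_right _ _
      exact_mod_cast this
    have h5 : (x.den : ℤ) ^ 2 ≤ (H x : ℤ) ^ 2 := pow_le_pow_left₀ (Int.natCast_nonneg _) h4 2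
    nlinarith
  refine ⟨x.num, x.den, y.num, y.den, e, f, ⟨hT _, ?_, hT _, ?_, hT _, hT _⟩,
    ⟨Rat.mul_den_eq_num x, ?_⟩, ⟨Rat.mul_den_eq_num y, ?_⟩, ?_, ⟨?_, ?_⟩, ?_, ?_⟩
  · exact_mod_cast hT (x.den : ℤ)
  · exact_mod_cast hT (y.den : ℤ)
  · exact_mod_cast x.den_nz
  · exact_mod_cast y.den_nz
  · exact_mod_cast h1
  · exact_mod_cast ha
  · exact_mod_cast hb
  · exact_mod_cast h2
  · exact_mod_cast h3

/-! ### soundness -/

lemma H_le_of_mul {x : ℚ} {p q : ℤ} (hq : q ≠ 0) (h : x * q = p) :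
    H x ≤ max p.natAbs q.natAbs := by
  have hx : x = (p : ℚ) / (q : ℚ) := by
    rw [eq_div_iff (by exact_mod_cast hq)]
    exact h
  unfold H
  apply max_le_max
  · by_cases hp : p = 0
    · have hx0 : x = 0 := by rw [hx, hp]; simp
      rw [hx0]
      simp
    · have h1 : x.num ∣ p := by
        rw [hx, ← Rat.divInt_eq_div]
        exact Rat.num_dvd p hq
      exact Nat.le_of_dvd (Int.natAbs_pos.mpr hp) (Int.natAbs_dvd_natAbs.mpr h1)
  · have h1 : (x.den : ℤ) ∣ q := by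
      rw [hx, ← Rat.divInt_eq_div]
      exact Rat.den_dvd p q
    have h2 := Int.natAbs_dvd_natAbs.mpr h1
    rw [Int.natAbs_natCast] at h2
    exact Nat.le_of_dvd (Int.natAbs_pos.mpr hq) h2

lemma abs_num (x : ℚ) : (x.num.natAbs : ℝ) = |(x : ℝ)| * x.den := by
  have h : (x.num.natAbs : ℚ) = |x| * x.den := by
    rw [Nat.cast_natAbs, Int.cast_abs, ← Rat.mul_den_eq_num, abs_mul,
      abs_of_nonneg (by positivity : (0 : ℚ) ≤ (x.den : ℚ))]
  have h2 : ((x.num.natAbs : ℚ) : ℝ) = ((|x| * x.den : ℚ) : ℝ) := by rw [h]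
  push_cast at h2 ⊢
  exact h2

lemma abs_le_num (x : ℚ) : |(x : ℝ)| ≤ x.num.natAbs := by
  rw [abs_num]
  have h1 : (1 : ℝ) ≤ x.den := by exact_mod_cast x.den_pos
  have := abs_nonneg (x : ℝ)
  nlinarith

/-- the height of a quotient -/
lemma H_quot {x a b : ℚ} (hb : b ≠ 0) (h : x * b = a) {L : ℝ} (ha : |(a : ℝ)| ≤ L)
    (hbL : |(b : ℝ)| ≤ L) : (H x : ℝ) ≤ L * a.den * b.den := by
  have hbn : b.num ≠ 0 := Rat.num_ne_zero.mpr hb
  have hq : b.num * a.den ≠ 0 := mul_ne_zero hbn (by exact_mod_cast a.den_nz)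
  have e : x * ((b.num * a.den : ℤ) : ℚ) = ((a.num * b.den : ℤ) : ℚ) := by
    push_cast
    rw [← Rat.mul_den_eq_num b, ← Rat.mul_den_eq_num a, ← h]
    ring
  have h1 := H_le_of_mul hq e
  rw [Int.natAbs_mul, Int.natAbs_mul, Int.natAbs_natCast, Int.natAbs_natCast] at h1
  have h2 : (H x : ℝ) ≤ max ((a.num.natAbs : ℝ) * b.den) ((b.num.natAbs : ℝ) * a.den) := by
    exact_mod_cast h1
  refine h2.trans (max_le ?_ ?_)
  · rw [abs_num]
    have := mul_le_mul_of_nonneg_right ha (show (0 : ℝ) ≤ a.den * b.den by positivity)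
    calc |(a : ℝ)| * a.den * b.den = |(a : ℝ)| * (a.den * b.den) := by ring
      _ ≤ L * (a.den * b.den) := this
      _ = _ := by ring
  · rw [abs_num]
    have := mul_le_mul_of_nonneg_right hbL (show (0 : ℝ) ≤ a.den * b.den by positivity)
    calc |(b : ℝ)| * b.den * a.den = |(b : ℝ)| * (a.den * b.den) := by ring
      _ ≤ L * (a.den * b.den) := this
      _ = _ := by ring

/-- the inverse of `d` has a large denominator -/
lemma abs_le_den_inv {d : ℚ} (hd : d ≠ 0) : |(d : ℝ)| ≤ (d⁻¹).den := by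
  rw [Rat.den_inv_of_ne_zero hd]
  exact abs_le_num d

/-- coprime quasi-integers are not much larger than the height of their quotient -/
lemma size_bound {y c d e f : ℚ} (hd : d ≠ 0) (h : y * d = c) (h1 : c * e + d * f = 1) {X : ℝ}
    (he : (e.den : ℝ) ≤ X) (hf : (f.den : ℝ) ≤ X) :
    |(c : ℝ)| ≤ H y * X ^ 2 ∧ |(d : ℝ)| ≤ H y * X ^ 2 := by
  have hX : 0 ≤ X := le_trans (Nat.cast_nonneg _) he
  have key : ∀ {w g k l : ℚ}, w ≠ 0 → w⁻¹ = g * k + l → (g.den : ℝ) ≤ H y →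
      (k.den : ℝ) ≤ X → (l.den : ℝ) ≤ X → |(w : ℝ)| ≤ H y * X ^ 2 := by
    intro w g k l hw hwe hg hk hl
    refine (abs_le_den_inv hw).trans ?_
    have h2 : (w⁻¹).den ≤ g.den * k.den * l.den := by
      rw [hwe]
      exact (den_add_le _ _).trans (Nat.mul_le_mul_right _ (den_mul_le _ _))
    calc ((w⁻¹).den : ℝ) ≤ g.den * k.den * l.den := by exact_mod_cast h2
      _ ≤ H y * X * X := by
          apply mul_le_mul (mul_le_mul hg hk (Nat.cast_nonneg _) (Nat.cast_nonneg _)) hl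
            (Nat.cast_nonneg _) (by positivity)
      _ = H y * X ^ 2 := by ring
  constructor
  · by_cases hc : c = 0
    · rw [hc]
      simp only [Rat.cast_zero, abs_zero]
      positivity
    · have hy : y ≠ 0 := by
        rintro rfl
        exact hc (by rw [← h, zero_mul])
      refine key (g := y⁻¹) (k := f) (l := e) hc ?_ ?_ hf he
      · rw [← h] at h1 ⊢
        field_simp
        linear_combination -h1
      · rw [Rat.den_inv_of_ne_zero hy]
        have : y.num.natAbs ≤ H y := le_max_left _ _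
        exact_mod_cast this
  · refine key (g := y) (k := e) (l := f) hd ?_ ?_ he hf
    · rw [← h] at h1
      field_simp
      linear_combination -h1
    · have : y.den ≤ H y := le_max_right _ _
      exact_mod_cast this

/-- `Λ ≤ t + 2 A √Λ` gives `Λ ≤ 4 A² + 2 t` -/
lemma solve_sqrt {A t Λ : ℝ} (hΛ : 0 ≤ Λ) (h : Λ ≤ t + 2 * A * √Λ) : Λ ≤ 4 * A ^ 2 + 2 * t := by
  have h1 := Real.sq_sqrt hΛ
  nlinarith [sq_nonneg (√Λ - 2 * A)]

/-- the tolerance of `RT` -/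
noncomputable def tq (A δ : ℝ) (hδ : δ < 1 / 2) : Tol :=
  ⟨1, 4 * |A| * (4 * A ^ 2 + 4) ^ (max δ 0) + 1, max δ 0, max_lt hδ (by norm_num)⟩

theorem btw_rt {A δ : ℝ} (hδ : δ < 1 / 2) {T : Set ℚ} (hT : Qu A δ T) :
    Btw (tq A δ hδ) (RT T) := by
  constructor
  · intro x y hxy
    change 1 * H x ≤ H y at hxy
    rw [one_mul] at hxy
    exact rt_compl hT.1 hxy
  · rintro x y ⟨a, b, c, d, e, f, ⟨ha, hb, hc, hd, he, hf⟩, ⟨hxb, hb0⟩, ⟨hyd, hd0⟩, hbez,
      ⟨i1, i2⟩, ⟨i3, i4⟩⟩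
    set δ' : ℝ := max δ 0 with hδ'
    have hδ0 : 0 ≤ δ' := le_max_right _ _
    have hδ2 : δ' ≤ 1 / 2 := max_le hδ.le (by norm_num)
    set L : ℝ := √((c : ℝ) ^ 2 + (d : ℝ) ^ 2) with hL
    have hbd : ∀ t : ℚ, t ^ 2 ≤ c ^ 2 + d ^ 2 → |(t : ℝ)| ≤ L := by
      intro t ht
      rw [hL]
      apply Real.abs_le_sqrt
      exact_mod_cast ht
    have hcL : |(c : ℝ)| ≤ L := hbd c (by nlinarith [sq_nonneg d])
    have hdL : |(d : ℝ)| ≤ L := hbd d (by nlinarith [sq_nonneg c])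
    set Λ : ℝ := 1 + Real.log (max 1 L) with hΛ
    have hm1 : (1 : ℝ) ≤ max 1 L := le_max_left _ _
    have hΛ1 : 1 ≤ Λ := by
      rw [hΛ]
      have := Real.log_nonneg hm1
      linarith
    set E : ℝ := |A| * Λ ^ δ' with hE
    have hE0 : 0 ≤ E := mul_nonneg (abs_nonneg _) (Real.rpow_nonneg (by linarith) _)
    have hden : ∀ t ∈ T, |(t : ℝ)| ≤ L → (t.den : ℝ) ≤ Real.exp E := by
      intro t ht htL
      have h1 := hT.2 t ht
      have hmt : (1 : ℝ) ≤ max 1 |(t : ℝ)| := le_max_left _ _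
      have h2 : 1 ≤ 1 + Real.log (max 1 |(t : ℝ)|) := by
        have := Real.log_nonneg hmt
        linarith
      have h3 : 1 + Real.log (max 1 |(t : ℝ)|) ≤ Λ := by
        rw [hΛ]
        have := Real.log_le_log (by linarith) (max_le_max (le_refl (1 : ℝ)) htL)
        linarith
      have h4 : (1 + Real.log (max 1 |(t : ℝ)|)) ^ δ ≤ Λ ^ δ' :=
        (Real.rpow_le_rpow_of_exponent_le h2 (le_max_left _ _)).trans
          (Real.rpow_le_rpow (by linarith) h3 hδ0)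
      have h5 : (0 : ℝ) ≤ (1 + Real.log (max 1 |(t : ℝ)|)) ^ δ := Real.rpow_nonneg (by linarith) _
      have h6 : Real.log t.den ≤ E := by
        rw [hE]
        calc Real.log t.den ≤ A * (1 + Real.log (max 1 |(t : ℝ)|)) ^ δ := h1
          _ ≤ |A| * (1 + Real.log (max 1 |(t : ℝ)|)) ^ δ :=
              mul_le_mul_of_nonneg_right (le_abs_self _) h5
          _ ≤ |A| * Λ ^ δ' := mul_le_mul_of_nonneg_left h4 (abs_nonneg _)
      have h7 : (0 : ℝ) < t.den := by exact_mod_cast t.den_pos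
      rw [← Real.exp_log h7]
      exact Real.exp_le_exp.mpr h6
    obtain ⟨s1, s2⟩ := size_bound hd0 hyd hbez (hden e he (hbd e i3)) (hden f hf (hbd f i4))
    have hHy : (1 : ℝ) ≤ H y := by exact_mod_cast H_pos y
    have hHx : (1 : ℝ) ≤ H x := by exact_mod_cast H_pos x
    have hexp : Real.exp E ^ 2 = Real.exp (2 * E) := by
      rw [pow_two, ← Real.exp_add]
      congr 1
      ring
    rw [hexp] at s1 s2
    set ly : ℝ := Real.log (H y) with hly
    have hly0 : 0 ≤ ly := Real.log_nonneg hHy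
    -- the size of `L`
    have hLle : L ≤ 2 * (H y * Real.exp (2 * E)) := by
      rw [hL]
      apply Real.sqrt_le_iff.mpr
      have hp : 0 ≤ (H y : ℝ) * Real.exp (2 * E) := by positivity
      refine ⟨by positivity, ?_⟩
      have k1 : (c : ℝ) ^ 2 ≤ (H y * Real.exp (2 * E)) ^ 2 := by
        rw [← sq_abs]
        exact pow_le_pow_left₀ (abs_nonneg _) s1 2
      have k2 : (d : ℝ) ^ 2 ≤ (H y * Real.exp (2 * E)) ^ 2 := by
        rw [← sq_abs]
        exact pow_le_pow_left₀ (abs_nonneg _) s2 2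
      nlinarith [sq_nonneg ((H y : ℝ) * Real.exp (2 * E))]
    have hlog2 : Real.log 2 ≤ 1 := by
      have := Real.log_two_lt_d9
      linarith
    have hmle : Real.log (max 1 L) ≤ ly + 2 * E + 1 := by
      have k1 : max 1 L ≤ 2 * (H y * Real.exp (2 * E)) := by
        apply max_le _ hLle
        have : 1 ≤ Real.exp (2 * E) := Real.one_le_exp (by positivity)
        nlinarith
      have k2 := Real.log_le_log (by linarith) k1
      rw [Real.log_mul two_ne_zero (by positivity), Real.log_mul (by positivity)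
        (Real.exp_pos _).ne', Real.log_exp] at k2
      linarith
    have hΛsq : Λ ^ δ' ≤ √Λ := by
      rw [Real.sqrt_eq_rpow]
      exact Real.rpow_le_rpow_of_exponent_le hΛ1 hδ2
    have hΛle : Λ ≤ (4 * A ^ 2 + 4) * (1 + ly) := by
      have k1 : Λ ≤ (ly + 2) + 2 * |A| * √Λ := by
        have k2 : 2 * E ≤ 2 * |A| * √Λ := by
          rw [hE]
          have := mul_le_mul_of_nonneg_left hΛsq (abs_nonneg A)
          linarith
        linarith
      have k3 := solve_sqrt (by linarith) k1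
      rw [sq_abs] at k3
      nlinarith [mul_nonneg (sq_nonneg A) hly0]
    have hEle : E ≤ |A| * (4 * A ^ 2 + 4) ^ δ' * (1 + ly) ^ δ' := by
      rw [hE, mul_assoc, ← Real.mul_rpow (by positivity) (by positivity)]
      exact mul_le_mul_of_nonneg_left (Real.rpow_le_rpow (by linarith) hΛle hδ0) (abs_nonneg _)
    -- the height of `x`
    have hx1 := H_quot hb0 hxb ((hbd a i1).trans (le_max_right 1 L)) ((hbd b i2).trans
      (le_max_right 1 L))
    have hx2 : (H x : ℝ) ≤ max 1 L * (Real.exp E * Real.exp E) := by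
      refine hx1.trans ?_
      rw [mul_assoc]
      apply mul_le_mul_of_nonneg_left _ (by linarith)
      exact mul_le_mul (hden a ha (hbd a i1)) (hden b hb (hbd b i2)) (Nat.cast_nonneg _)
        (Real.exp_pos _).le
    have hx3 : Real.log (H x) ≤ Real.log (max 1 L) + 2 * E := by
      have k1 := Real.log_le_log (by linarith) hx2
      rw [Real.log_mul (by positivity) (by positivity), ← Real.exp_add, Real.log_exp] at k1
      linarith
    have hone : (1 : ℝ) ≤ (1 + ly) ^ δ' := Real.one_le_rpow (by linarith) hδ0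
    change Real.log (H x) ≤ ly + (4 * |A| * (4 * A ^ 2 + 4) ^ δ' + 1) * (1 + ly) ^ δ'
    nlinarith

end Pool.Agent.TH255.QI
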